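import Pool.Agent.Helper97.Tate.Goals

/-!
S_CUB of the project FewPoints: the cubic relation between the three theta functions of degree three.
-/

set_option autoImplicit false
set_option linter.unusedSimpArgs false

noncomputable section

namespace Pool.Agent.Helper87.Tate.CUB

open Pool.Agent.Helper97.Tate

variable {k : Type} [Field k]

/-- only the exponents congruent to `r` modulo three occur -/
def Cg (r : ℤ) (f : SS k) : Prop := ∀ N n : ℤ, cf f N n ≠ 0 → (3 : ℤ) ∣ n - r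

theorem Cg.mul (h1 : S_CFM) {r s : ℤ} {f g : SS k} (hf : Cg r f) (hg : Cg s g) :
    Cg (r + s) (f * g) := by
  intro N n hn
  rw [(h1 k f g N n).2] at hn
  obtain ⟨p, hp⟩ : ∃ p : ℤ × ℤ, cf f p.1 p.2 * cf g (N - p.1) (n - p.2) ≠ 0 := by
    by_contra hcon
    push Not at hcon
    apply hn
    rw [finsum_congr hcon, finsum_zero]
  have h2 := hf p.1 p.2 (left_ne_zero_of_mul hp)
  have h3 := hg (N - p.1) (n - p.2) (right_ne_zero_of_mul hp)
  have h4 : n - (r + s) = (p.2 - r) + (n - p.2 - s) := by ring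
  rw [h4]
  exact dvd_add h2 h3

theorem Cg.to_zero {r : ℤ} {f : SS k} (hf : Cg r f) (hr : (3 : ℤ) ∣ r) : Cg 0 f := by
  intro N n hn
  have h := dvd_add (hf N n hn) hr
  simpa using h

theorem cg_th (h3 : S_THC) (r : ℤ) (hr : 0 ≤ r) (hr3 : r < 3) : Cg r (Th 3 r (1 : k)) := by
  intro N n hn
  rw [(h3 k 3 r 1 one_ne_zero hr (by exact_mod_cast hr3)).1 N n] at hn
  by_contra hd
  apply hn
  rw [if_neg]
  rintro ⟨h, -⟩
  exact hd (by exact_mod_cast h)

theorem ser_zero {f : SS k} (hf : Cg 0 f) (r : ℤ) (hr : ¬ (3 : ℤ) ∣ r) : ser f r = 0 := by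
  ext N
  simp only [ser, PowerSeries.coeff_mk, map_zero]
  by_contra h
  exact hr (by simpa using hf N r h)

theorem expand (h4 : S_BAS) {f : SS k} (hf : IsTh 9 (1 : k) f) (hc : Cg 0 f) :
    f = iO (ser f 0) * Th 9 0 1 + iO (ser f 3) * Th 9 3 1 + iO (ser f 6) * Th 9 6 1 := by
  have h := (h4 k 9 1 (by norm_num) one_ne_zero).1 f hf
  have e1 : ser f 1 = 0 := ser_zero hc 1 (by norm_num)
  have e2 : ser f 2 = 0 := ser_zero hc 2 (by norm_num)
  have e4 : ser f 4 = 0 := ser_zero hc 4 (by norm_num)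
  have e5 : ser f 5 = 0 := ser_zero hc 5 (by norm_num)
  have e7 : ser f 7 = 0 := ser_zero hc 7 (by norm_num)
  have e8 : ser f 8 = 0 := ser_zero hc 8 (by norm_num)
  rw [Fin.sum_univ_succ, Fin.sum_univ_eight] at h
  simp only [Fin.val_zero, Fin.val_succ, Nat.cast_zero, Fin.val_one, Fin.val_two] at h
  norm_num at h
  rw [e1, e2, e4, e5, e7, e8, map_zero] at h
  simp only [zero_mul, add_zero, zero_add] at h
  refine h.trans ?_
  ring

theorem cc_ser (f : SS k) (r : ℤ) :
    PowerSeries.constantCoeff (ser f r) = (PowerSeries.constantCoeff f).coeff r := by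
  rw [← PowerSeries.coeff_zero_eq_constantCoeff_apply, ← PowerSeries.coeff_zero_eq_constantCoeff_apply]
  simp [ser, cf]

theorem isTh3 (h3 : S_THC) (r : ℤ) (hr : 0 ≤ r) (hr3 : r < 3) : IsTh 3 (1 : k) (Th 3 r (1 : k)) :=
  (h3 k 3 r 1 one_ne_zero hr (by exact_mod_cast hr3)).2.1

theorem isTh9 (h2 : S_MUL) {f g h : SS k} (hf : IsTh 3 (1 : k) f) (hg : IsTh 3 (1 : k) g)
    (hh : IsTh 3 (1 : k) h) : IsTh 9 (1 : k) (f * g * h) := by
  have := (h2 k).2 (3 + 3) 3 (1 * 1) 1 (f * g) h ((h2 k).2 3 3 1 1 f g hf hg) hh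
  simpa using this

/-- the linear algebra over `k⟦q⟧` -/
theorem solve (a0 b0 c0 a1 b1 c1 a2 b2 c2 a b c : OO k)
    (ha0 : PowerSeries.constantCoeff a0 = 1) (hb0 : PowerSeries.constantCoeff b0 = 3)
    (hc0 : PowerSeries.constantCoeff c0 = 3)
    (ha1 : PowerSeries.constantCoeff a1 = 0) (hb1 : PowerSeries.constantCoeff b1 = 1)
    (hc1 : PowerSeries.constantCoeff c1 = 0)
    (ha2 : PowerSeries.constantCoeff a2 = 0) (hb2 : PowerSeries.constantCoeff b2 = 0)
    (hc2 : PowerSeries.constantCoeff c2 = 1)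
    (ha : PowerSeries.constantCoeff a = 0) (hb : PowerSeries.constantCoeff b = 1)
    (hc : PowerSeries.constantCoeff c = 1) :
    ∃ α β γ : OO k, PowerSeries.X ∣ α ∧ PowerSeries.X ∣ β - 1 ∧ PowerSeries.X ∣ γ - 1 ∧
      a = α * a0 + β * a1 + γ * a2 ∧ b = α * b0 + β * b1 + γ * b2 ∧
        c = α * c0 + β * c1 + γ * c2 := by
  set D : OO k := a0 * (b1 * c2 - b2 * c1) - a1 * (b0 * c2 - b2 * c0) + a2 * (b0 * c1 - b1 * c0)
    with hD
  have hDc : PowerSeries.constantCoeff D = 1 := by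
    rw [hD]
    simp only [map_add, map_sub, map_mul, ha0, hb0, hc0, ha1, hb1, hc1, ha2, hb2, hc2]
    ring
  have hDi : D * D⁻¹ = 1 := PowerSeries.mul_inv_cancel D (by rw [hDc]; exact one_ne_zero)
  have hIc : PowerSeries.constantCoeff D⁻¹ = 1 := by
    have h := congrArg PowerSeries.constantCoeff hDi
    rw [map_mul, hDc, one_mul, map_one] at h
    exact h
  refine ⟨D⁻¹ * (a * (b1 * c2 - b2 * c1) - a1 * (b * c2 - b2 * c) + a2 * (b * c1 - b1 * c)),
    D⁻¹ * (a0 * (b * c2 - b2 * c) - a * (b0 * c2 - b2 * c0) + a2 * (b0 * c - b * c0)),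
    D⁻¹ * (a0 * (b1 * c - b * c1) - a1 * (b0 * c - b * c0) + a * (b0 * c1 - b1 * c0)),
    ?_, ?_, ?_, ?_, ?_, ?_⟩
  · rw [PowerSeries.X_dvd_iff]
    simp only [map_add, map_sub, map_mul, ha0, hb0, hc0, ha1, hb1, hc1, ha2, hb2, hc2, ha, hb, hc,
      hIc]
    ring
  · rw [PowerSeries.X_dvd_iff]
    simp only [map_add, map_sub, map_mul, ha0, hb0, hc0, ha1, hb1, hc1, ha2, hb2, hc2, ha, hb, hc,
      hIc, map_one]
    ring
  · rw [PowerSeries.X_dvd_iff]
    simp only [map_add, map_sub, map_mul, ha0, hb0, hc0, ha1, hb1, hc1, ha2, hb2, hc2, ha, hb, hc,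
      hIc, map_one]
    ring
  · linear_combination (-a) * hDi
  · linear_combination (-b) * hDi
  · linear_combination (-c) * hDi

theorem t (h1 : S_CFM) (h2 : S_MUL) (h3 : S_THC) (h4 : S_BAS) : S_CUB := by
  intro k _
  -- constant coefficients
  have q0 : PowerSeries.constantCoeff (Th 3 0 (1 : k)) =
      1 + LaurentPolynomial.T 3 := by
    rw [(h3 k 3 0 1 one_ne_zero le_rfl (by norm_num)).2.2]
    simp
  have q1 : PowerSeries.constantCoeff (Th 3 1 (1 : k)) = LaurentPolynomial.T 1 := by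
    rw [(h3 k 3 1 1 one_ne_zero (by norm_num) (by norm_num)).2.2]
    simp
  have q2 : PowerSeries.constantCoeff (Th 3 2 (1 : k)) = LaurentPolynomial.T 2 := by
    rw [(h3 k 3 2 1 one_ne_zero (by norm_num) (by norm_num)).2.2]
    simp
  have t0 := isTh3 (k := k) h3 0 le_rfl (by norm_num)
  have t1 := isTh3 (k := k) h3 1 (by norm_num) (by norm_num)
  have t2 := isTh3 (k := k) h3 2 (by norm_num) (by norm_num)
  have g0 := cg_th (k := k) h3 0 le_rfl (by norm_num)
  have g1 := cg_th (k := k) h3 1 (by norm_num) (by norm_num)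
  have g2 := cg_th (k := k) h3 2 (by norm_num) (by norm_num)
  set x0 : SS k := Th 3 0 1 with hx0
  set x1 : SS k := Th 3 1 1 with hx1
  set x2 : SS k := Th 3 2 1 with hx2
  have E0 := expand h4 (isTh9 h2 t0 t0 t0) (((g0.mul h1 g0).mul h1 g0).to_zero (by norm_num))
  have E1 := expand h4 (isTh9 h2 t1 t1 t1) (((g1.mul h1 g1).mul h1 g1).to_zero (by norm_num))
  have E2 := expand h4 (isTh9 h2 t2 t2 t2) (((g2.mul h1 g2).mul h1 g2).to_zero (by norm_num))
  have E := expand h4 (isTh9 h2 t0 t1 t2) (((g0.mul h1 g1).mul h1 g2).to_zero (by norm_num))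
  have c0 : PowerSeries.constantCoeff (x0 * x0 * x0) =
      1 + LaurentPolynomial.C 3 * LaurentPolynomial.T 3 +
        LaurentPolynomial.C 3 * LaurentPolynomial.T 6 + LaurentPolynomial.T 9 := by
    have e6 : (LaurentPolynomial.T 6 : LaurentPolynomial k) =
        LaurentPolynomial.T 3 * LaurentPolynomial.T 3 := by rw [← LaurentPolynomial.T_add]; norm_num
    have e9 : (LaurentPolynomial.T 9 : LaurentPolynomial k) =
        LaurentPolynomial.T 3 * LaurentPolynomial.T 3 * LaurentPolynomial.T 3 := by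
      rw [← LaurentPolynomial.T_add, ← LaurentPolynomial.T_add]; norm_num
    have e3 : (LaurentPolynomial.C 3 : LaurentPolynomial k) = 3 := map_ofNat _ 3
    rw [map_mul, map_mul, q0, e6, e9, e3]
    ring
  have c1 : PowerSeries.constantCoeff (x1 * x1 * x1) = LaurentPolynomial.T 3 := by
    rw [map_mul, map_mul, q1, ← LaurentPolynomial.T_add, ← LaurentPolynomial.T_add]
    norm_num
  have c2 : PowerSeries.constantCoeff (x2 * x2 * x2) = LaurentPolynomial.T 6 := by
    rw [map_mul, map_mul, q2, ← LaurentPolynomial.T_add, ← LaurentPolynomial.T_add]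
    norm_num
  have c : PowerSeries.constantCoeff (x0 * x1 * x2) =
      LaurentPolynomial.T 3 + LaurentPolynomial.T 6 := by
    have e6 : (LaurentPolynomial.T 6 : LaurentPolynomial k) =
        LaurentPolynomial.T 3 * LaurentPolynomial.T 1 * LaurentPolynomial.T 2 := by
      rw [← LaurentPolynomial.T_add, ← LaurentPolynomial.T_add]; norm_num
    have e3 : (LaurentPolynomial.T 3 : LaurentPolynomial k) =
        LaurentPolynomial.T 1 * LaurentPolynomial.T 2 := by
      rw [← LaurentPolynomial.T_add]; norm_num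
    rw [map_mul, map_mul, q0, q1, q2, e6]
    linear_combination (-1 : LaurentPolynomial k) * e3
  obtain ⟨α, β, γ, hα, hβ, hγ, r0, r3, r6⟩ := solve
    (ser (x0 * x0 * x0) 0) (ser (x0 * x0 * x0) 3) (ser (x0 * x0 * x0) 6)
    (ser (x1 * x1 * x1) 0) (ser (x1 * x1 * x1) 3) (ser (x1 * x1 * x1) 6)
    (ser (x2 * x2 * x2) 0) (ser (x2 * x2 * x2) 3) (ser (x2 * x2 * x2) 6)
    (ser (x0 * x1 * x2) 0) (ser (x0 * x1 * x2) 3) (ser (x0 * x1 * x2) 6)
    (by rw [cc_ser, c0]
        simp [← LaurentPolynomial.single_eq_C_mul_T, Finsupp.single_apply,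
          ← LaurentPolynomial.T_zero])
    (by rw [cc_ser, c0]
        simp [← LaurentPolynomial.single_eq_C_mul_T, Finsupp.single_apply,
          ← LaurentPolynomial.T_zero])
    (by rw [cc_ser, c0]
        simp [← LaurentPolynomial.single_eq_C_mul_T, Finsupp.single_apply,
          ← LaurentPolynomial.T_zero])
    (by rw [cc_ser, c1]; simp)
    (by rw [cc_ser, c1]; simp)
    (by rw [cc_ser, c1]; simp)
    (by rw [cc_ser, c2]; simp)
    (by rw [cc_ser, c2]; simp)
    (by rw [cc_ser, c2]; simp)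
    (by rw [cc_ser, c]; simp)
    (by rw [cc_ser, c]; simp)
    (by rw [cc_ser, c]; simp)
  refine ⟨α, β, γ, hα, hβ, hγ, ?_⟩
  have p0 : x0 ^ 3 = x0 * x0 * x0 := by ring
  have p1 : x1 ^ 3 = x1 * x1 * x1 := by ring
  have p2 : x2 ^ 3 = x2 * x2 * x2 := by ring
  rw [← hx0, ← hx1, ← hx2, p0, p1, p2, E0, E1, E2, E, r0, r3, r6]
  simp only [map_add, map_mul]
  ring

end Pool.Agent.Helper87.Tate.CUB
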